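import Mathlib
import Pool.Agent.X190.GH.Main

/-!
# Oversampling in the Gelfand–Hilbert number inequality for Hilbert domains (MP_93c8fe_an, Q1)

Q1 holds: no oversampling is needed. `gelfand n S F` and `hilbertNum n S F` are the numbers
`c_n(S, F)` and `h_n(S, F)` of the problem file.
-/

universe u v

namespace Pool.Agent.Results.MP_93c8fe_an.NoOversampling

open X190.GH

/-- For every Hilbert space `X`, every normed (in particular Banach) space `Y`, every bounded
operator `S : X → Y` and every `n ≥ 1` the inequality of Q1 holds, and more strongly the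
geometric mean of the first `n` Gelfand numbers satisfies the same bound. -/
theorem result :
    ∀ (X : Type u) (Y : Type v) [NormedAddCommGroup X] [InnerProductSpace ℝ X] [CompleteSpace X]
      [NormedAddCommGroup Y] [NormedSpace ℝ Y] (S : X →L[ℝ] Y) (n : ℕ), 1 ≤ n →
      gelfand (n - 1) S (Metric.closedBall 0 1) ≤
          (n : ℝ) ^ (1 / 2 : ℝ) *
            (∏ k ∈ Finset.range n, hilbertNum k S (Metric.closedBall 0 1)) ^ (1 / (n : ℝ)) ∧
        (∏ k ∈ Finset.range n, gelfand k S (Metric.closedBall 0 1)) ^ (1 / (n : ℝ)) ≤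
          (n : ℝ) ^ (1 / 2 : ℝ) *
            (∏ k ∈ Finset.range n, hilbertNum k S (Metric.closedBall 0 1)) ^ (1 / (n : ℝ)) := by
  intro X Y _ _ _ _ _ S n hn
  exact ⟨(last_le_geo S n hn).trans (geo_mean S n hn), geo_mean S n hn⟩

end Pool.Agent.Results.MP_93c8fe_an.NoOversampling
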